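import Pool.Agent.H30.FreeSub

open Pool.Agent.H30.FreeSub

theorem Pool.Agent.Results.MP_df6457_lc.Infinite.result :
    ∃ L : Language (Fin 2), Factorial L ∧ Transitive L ∧ L.IsRegular ∧
      {M : Set (List (Fin 2)) | MaxFree L M}.Infinite :=
  ⟨L0, fac, tra, reg, infinite_max⟩
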